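import Pool.Agent.E8helper49.PC.Stm

/-! Project PC, piece INF1: a field inside `Ω` has at most one real embedding. -/

set_option autoImplicit false

namespace Pool.Agent.E8helper64.PC

open Pool.Agent.E8helper49.PC NumberField

theorem exists_ext {F Ω : Type} [Field F] [NumberField F] [Field Ω] [NumberField Ω]
    (e : F →+* Ω) (φ : F →+* ℂ) : ∃ ι : Ω →+* ℂ, ∀ x, ι (e x) = φ x := by
  letI := e.toAlgebra
  letI := φ.toAlgebra
  haveI : Algebra.IsAlgebraic F Ω := Algebra.IsAlgebraic.tower_top (K := ℚ) F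
  refine ⟨(IsAlgClosed.lift (R := F) (S := Ω) (M := ℂ)).toRingHom, fun x => ?_⟩
  exact (IsAlgClosed.lift (R := F) (S := Ω) (M := ℂ)).commutes x

theorem exists_aut {Ω : Type} [Field Ω] [NumberField Ω] [IsGalois ℚ Ω] (ι ι₂ : Ω →+* ℂ) :
    ∃ g : Ω ≃ₐ[ℚ] Ω, ∀ x, ι₂ x = ι (g x) := by
  obtain ⟨σ, hσ⟩ := ComplexEmbedding.exists_comp_symm_eq_of_comp_eq (k := ℚ) ι ι₂
    (Subsingleton.elim _ _)
  exact ⟨σ.symm, fun x => by rw [← hσ]; rfl⟩

/-- the automorphisms that fix `ω` -/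
def fixer {Ω : Type} [Field Ω] [NumberField Ω] (ω : Ω) : Subgroup (Ω ≃ₐ[ℚ] Ω) where
  carrier := {σ | σ ω = ω}
  mul_mem' := by
    intro a b ha hb
    show a (b ω) = ω
    rw [show b ω = ω from hb]
    exact ha
  one_mem' := rfl
  inv_mem' := by
    intro a ha
    show a⁻¹ ω = ω
    have h : a ω = ω := ha
    have h2 : a⁻¹ (a ω) = ω := by rw [← AlgEquiv.mul_apply, inv_mul_cancel]; rfl
    rwa [h] at h2

theorem root_cases {Ω : Type} [Field Ω] [NumberField Ω] {ω : Ω} (hω : ω ^ 2 + ω + 1 = 0)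
    (σ : Ω ≃ₐ[ℚ] Ω) : σ ω = ω ∨ σ ω = -1 - ω := by
  have h : (σ ω) ^ 2 + σ ω + 1 = 0 := by
    have := congrArg σ hω
    rw [map_add, map_add, map_pow, map_one, map_zero] at this
    exact this
  have h2 : (σ ω - ω) * (σ ω - (-1 - ω)) = 0 := by linear_combination h - hω
  rcases mul_eq_zero.mp h2 with h3 | h3
  · exact Or.inl (sub_eq_zero.mp h3)
  · exact Or.inr (sub_eq_zero.mp h3)

theorem t_INF1 : S_GRP → S_INV → S_INF1 := by
  intro hG hI M Ω _ _ hM hClo F _ _ ⟨e⟩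
  obtain ⟨hgal, hgrp⟩ := hG M Ω (fun l hl => (hM l hl).1.pos) hClo
  obtain ⟨ω, r, hω, -, -⟩ := hClo
  obtain ⟨hinv, hcub, -⟩ := hgrp ω hω
  constructor
  intro φ₁ φ₂
  obtain ⟨ι, hι⟩ := exists_ext e (Complex.ofRealHom.comp φ₁)
  obtain ⟨ι₂, hι₂⟩ := exists_ext e (Complex.ofRealHom.comp φ₂)
  obtain ⟨g, hg⟩ := exists_aut ι ι₂
  obtain ⟨τ, hτ⟩ := exists_aut ι ((starRingEnd ℂ).comp ι)
  have hτ' : ∀ x, (starRingEnd ℂ) (ι x) = ι (τ x) := hτ
  -- `τ` moves `ω`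
  have hτω : τ ω ≠ ω := by
    intro h
    have h1 := hτ' ω
    rw [h] at h1
    obtain ⟨y, hy⟩ := Complex.conj_eq_iff_real.mp h1
    have h2 : (ι ω) ^ 2 + ι ω + 1 = 0 := by
      have := congrArg ι hω
      rw [map_add, map_add, map_pow, map_one, map_zero] at this
      exact this
    rw [hy] at h2
    have h3 : y ^ 2 + y + 1 = 0 := by exact_mod_cast h2
    nlinarith [sq_nonneg (y + 1 / 2)]
  have hτe : ∀ x, τ (e x) = e x := by
    intro x
    apply ι.injective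
    rw [← hτ', hι]
    exact Complex.conj_ofReal _
  have hτg : ∀ x, τ (g (e x)) = g (e x) := by
    intro x
    apply ι.injective
    rw [← hτ', ← hg, hι₂]
    exact Complex.conj_ofReal _
  -- the roots
  have hmem : ∀ σ : Ω ≃ₐ[ℚ] Ω, σ ∈ fixer ω ↔ σ ω = ω := fun σ => Iff.rfl
  have hroot : ∀ σ : Ω ≃ₐ[ℚ] Ω, σ ω = ω ∨ σ ω = -1 - ω := root_cases hω
  have hbar : ∀ σ : Ω ≃ₐ[ℚ] Ω, σ (-1 - ω) = -1 - σ ω := by
    intro σ
    rw [map_sub, map_neg, map_one]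
  obtain ⟨hI1, hI2⟩ := hI (Ω ≃ₐ[ℚ] Ω) (fixer ω) (fun σ hσ => hinv σ hσ) (fun σ hσ => hcub σ hσ)
    (by
      intro a b ha hb
      rw [hmem] at ha hb ⊢
      have ha' := (hroot a).resolve_left ha
      have hb' := (hroot b).resolve_left hb
      rw [AlgEquiv.mul_apply, hb', hbar, ha']
      ring)
  set u : Ω ≃ₐ[ℚ] Ω := g⁻¹ * τ * g with hu
  have huN : u ∉ fixer ω := by
    intro h
    rw [hmem] at h
    apply hτω
    have h1 : τ = g * u * g⁻¹ := by rw [hu]; group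
    have h2 : u (g⁻¹ ω) = g⁻¹ ω := by
      rcases hroot g⁻¹ with h3 | h3
      · rw [h3]; exact h
      · rw [h3, hbar, h]
    rw [h1, AlgEquiv.mul_apply, AlgEquiv.mul_apply, h2, ← AlgEquiv.mul_apply, mul_inv_cancel]
    rfl
  have hconj := hI2 τ u hτω huN
  set h : Ω ≃ₐ[ℚ] Ω := τ * u with hh
  have hue : ∀ x, u (e x) = e x := by
    intro x
    rw [hu, AlgEquiv.mul_apply, AlgEquiv.mul_apply, hτg, ← AlgEquiv.mul_apply, inv_mul_cancel]
    rfl
  have hhe : ∀ x, h (e x) = e x := by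
    intro x
    rw [hh, AlgEquiv.mul_apply, hue, hτe]
  have hcomm : (g * h) * τ = τ * (g * h) := by
    have h1 : h * τ * h⁻¹ = g⁻¹ * τ * g := hconj
    have h2 : h * τ = g⁻¹ * τ * g * h := by rw [← h1]; group
    calc (g * h) * τ = g * (h * τ) := by rw [mul_assoc]
      _ = g * (g⁻¹ * τ * g * h) := by rw [h2]
      _ = τ * (g * h) := by group
  have hge : ∀ x, g (e x) = e x := by
    intro x
    have h1 : g (e x) = (g * h) (e x) := by rw [AlgEquiv.mul_apply, hhe]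
    rw [h1]
    rcases hI1 τ (g * h) hτω hcomm with h2 | h2
    · rw [h2]; rfl
    · rw [h2, hτe]
  ext x
  have h1 : ((φ₁ x : ℝ) : ℂ) = ((φ₂ x : ℝ) : ℂ) := by
    have e1 : ι (e x) = ((φ₁ x : ℝ) : ℂ) := hι x
    have e2 : ι₂ (e x) = ((φ₂ x : ℝ) : ℂ) := hι₂ x
    rw [← e1, ← e2, hg, hge]
  exact_mod_cast h1

end Pool.Agent.E8helper64.PC
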